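import Pool.Agent.W682.BQ.Stm
import Pool.Agent.W360.IW.Conc
import Pool.Agent.W116.IW.Ibp

/-! Project BQ: the torus.  Fourier series of square integrable functions on the unit square, and
the passage from trigonometric polynomials to `W^{1,2}` of the torus. -/

set_option autoImplicit false

namespace Pool.Agent.W682.BQ.Tor

open MeasureTheory Set Filter Topology UnitAddTorus
open Pool.Agent.W488.IW Pool.Agent.W488.IX Pool.Agent.W682.BQ
open Pool.Agent.W360.BQ (Cf Vg QCF S_FLOWF S_NULLF)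
open Pool.Agent.W360.IW.Conc (TT fv ET ET_coe bT bT_coe sum_coe norm_sq_eq)
open Pool.Agent.W116.IW.Ibp (dk dk_zero dk_one hasFDerivAt_ek ek_periodic)
open scoped ComplexConjugate ENNReal

noncomputable local instance : MeasureSpace UnitAddCircle := ⟨AddCircle.haarAddCircle⟩

local instance : Measure.IsAddHaarMeasure (volume : Measure UnitAddCircle) :=
  inferInstanceAs (Measure.IsAddHaarMeasure AddCircle.haarAddCircle)

local instance : IsProbabilityMeasure (volume : Measure UnitAddCircle) :=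
  inferInstanceAs (IsProbabilityMeasure AddCircle.haarAddCircle)

instance finQ : IsFiniteMeasure ((volume : Measure V).restrict (Icc 0 1)) :=
  ⟨by rw [Measure.restrict_apply_univ, Real.volume_Icc_pi]; simp⟩

/-- the representative in the half open cube -/
noncomputable def rep (t : TT) : V := (measurableEquivPiIoc (0 : V) t : V)

theorem coe_rep (t : TT) : (fun i => ((rep t i : ℝ) : UnitAddCircle)) = t :=
  (measurableEquivPiIoc (0 : V)).symm_apply_apply t

theorem mp_rep : MeasurePreserving rep (volume : Measure TT)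
    ((volume : Measure V).restrict (Icc 0 1)) := by
  have h1 := measurePreserving_equivPiIoc (0 : V)
  have hs : MeasurableSet {x : V | ∀ i, x i ∈ Ioc ((0 : V) i) ((0 : V) i + 1)} :=
    MeasurableSet.univ_pi' (fun i => measurableSet_Ioc)
  have h2 := measurePreserving_subtype_coe (μa := (volume : Measure V)) hs
  have h3 := h2.comp h1
  have h4 : (volume : Measure V).restrict {x : V | ∀ i, x i ∈ Ioc ((0 : V) i) ((0 : V) i + 1)}
      = (volume : Measure V).restrict (Icc 0 1) := by
    have h5 : {x : V | ∀ i, x i ∈ Ioc ((0 : V) i) ((0 : V) i + 1)}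
        = Set.pi univ fun i => Ioc ((0 : V) i) ((1 : V) i) := by
      ext x; simp
    have h6 : (Set.pi univ fun i => Ioc ((0 : V) i) ((1 : V) i)) =ᵐ[(volume : Measure V)]
        Icc (0 : V) 1 := Measure.univ_pi_Ioc_ae_eq_Icc
    rw [h5]
    exact Measure.restrict_congr_set h6
  rw [h4] at h3
  exact h3

theorem int_rep {F : Type} [NormedAddCommGroup F] [NormedSpace ℝ F] (g : V → F)
    (hg : AEStronglyMeasurable g ((volume : Measure V).restrict (Icc 0 1))) :
    ∫ t : TT, g (rep t) = ∫ x in Icc (0 : V) 1, g x := by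
  have h := mp_rep.map_eq
  rw [← h] at hg ⊢
  exact (integral_map mp_rep.measurable.aemeasurable hg).symm

theorem ET_rep (k : Idx) (t : TT) : ET k t = ek k (rep t) := by
  rw [← ET_coe, coe_rep]

theorem continuous_ek (k : Idx) : Continuous (ek k) := by
  unfold ek
  fun_prop

/-- Fourier coefficient -/
noncomputable def fc (h : V → ℂ) (k : Idx) : ℂ := ∫ y in Icc (0 : V) 1, conj (ek k y) * h y

theorem box_mono : Monotone box := by
  intro m n hmn
  unfold box
  have : (m : ℤ) ≤ n := by exact_mod_cast hmn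
  exact Finset.product_subset_product (Finset.Icc_subset_Icc (by linarith) this)
    (Finset.Icc_subset_Icc (by linarith) this)

theorem box_tendsto : Tendsto box atTop atTop := by
  apply tendsto_atTop_finset_of_monotone box_mono
  intro k
  refine ⟨(max |k.1| |k.2|).toNat, ?_⟩
  unfold box
  have h0 : (0 : ℤ) ≤ max |k.1| |k.2| := le_max_of_le_left (abs_nonneg _)
  rw [Int.toNat_of_nonneg h0]
  simp only [Finset.mem_product, Finset.mem_Icc]
  have h1 : |k.1| ≤ max |k.1| |k.2| := le_max_left _ _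
  have h2 : |k.2| ≤ max |k.1| |k.2| := le_max_right _ _
  refine ⟨?_, ?_⟩
  · exact abs_le.1 h1
  · exact abs_le.1 h2

/-- convergence of Fourier series in the mean -/
theorem fourier_L2 (h : V → ℂ) (hh : MemLp h 2 ((volume : Measure V).restrict (Icc 0 1))) :
    Tendsto (fun N => ∫ x in Icc (0 : V) 1, ‖h x - ∑ k ∈ box N, fc h k * ek k x‖ ^ 2)
      atTop (𝓝 0) := by
  have hT : MemLp (fun t : TT => h (rep t)) 2 (volume : Measure TT) :=
    hh.comp_measurePreserving mp_rep
  set u : Lp ℂ 2 (volume : Measure TT) := hT.toLp _ with hu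
  have hu1 : (u : TT → ℂ) =ᵐ[volume] fun t => h (rep t) := hT.coeFn_toLp
  have hc : ∀ k, (inner ℂ (bT k : Lp ℂ 2 (volume : Measure TT)) u : ℂ) = fc h k := by
    intro k
    rw [L2.inner_def]
    unfold fc
    rw [← int_rep (fun y => conj (ek k y) * h y)
      ((Complex.continuous_conj.comp (continuous_ek k)).aestronglyMeasurable.mul hh.1)]
    apply integral_congr_ae
    filter_upwards [bT_coe k, hu1] with t h1 h2
    rw [h1, h2, RCLike.inner_apply, mul_comm, ET_rep]
  have hsum : HasSum (fun k => (fc h k) • (bT k : Lp ℂ 2 (volume : Measure TT))) u := by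
    have h1 := bT.hasSum_repr u
    have h2 : (fun k => bT.repr u k • (bT k : Lp ℂ 2 (volume : Measure TT)))
        = fun k => (fc h k) • (bT k : Lp ℂ 2 (volume : Measure TT)) := by
      funext k
      rw [bT.repr_apply_apply, hc]
    rw [h2] at h1
    exact h1
  have h3 : Tendsto (fun N => ∑ k ∈ box N, (fc h k) • (bT k : Lp ℂ 2 (volume : Measure TT)))
      atTop (𝓝 u) := by
    have h0 : Tendsto (fun s : Finset Idx => ∑ k ∈ s,
        (fc h k) • (bT k : Lp ℂ 2 (volume : Measure TT))) atTop (𝓝 u) := by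
      simpa only [HasSum, SummationFilter.unconditional_filter] using hsum
    exact h0.comp box_tendsto
  have h4 : Tendsto (fun N => ‖u - ∑ k ∈ box N,
      (fc h k) • (bT k : Lp ℂ 2 (volume : Measure TT))‖ ^ 2) atTop (𝓝 0) := by
    have h5 := ((tendsto_const_nhds (x := u)).sub h3).norm.pow 2
    simpa using h5
  refine h4.congr fun N => ?_
  rw [norm_sq_eq (u - ∑ k ∈ box N, (fc h k) • (bT k : Lp ℂ 2 (volume : Measure TT)))
    (fun t => (h (rep t) - ∑ k ∈ box N, fc h k * ek k (rep t)))]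
  · refine int_rep (fun x => ‖h x - ∑ k ∈ box N, fc h k * ek k x‖ ^ 2) ?_
    refine (AEStronglyMeasurable.norm ?_).pow 2
    refine hh.1.sub (Continuous.aestronglyMeasurable ?_)
    exact continuous_finsetSum _ fun k _ => continuous_const.mul (continuous_ek k)
  · filter_upwards [hu1, Lp.coeFn_sub u (∑ k ∈ box N,
      (fc h k) • (bT k : Lp ℂ 2 (volume : Measure TT))), sum_coe ET bT bT_coe (box N) (fc h)]
      with t h1 h2 h3
    rw [h2, Pi.sub_apply, h1, h3]
    simp only [ET_rep]

/-! ### the Sverak function -/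

/-- the Burkholder-Sverak function -/
noncomputable def LS (z w : ℂ) : ℝ := if ‖z‖ + ‖w‖ ≤ 1 then ‖z‖ ^ 2 - ‖w‖ ^ 2 else 2 * ‖z‖ - 1

theorem LS_eq (z w : ℂ) : LS z w = Ls 1 ‖z‖ ‖w‖ := by
  unfold LS Ls
  split_ifs <;> ring

theorem Ls_lip (x y x' y' : ℝ) (hx : 0 ≤ x) (hy : 0 ≤ y) (hx' : 0 ≤ x') (hy' : 0 ≤ y') :
    Ls 1 x y - Ls 1 x' y' ≤ 2 * |x - x'| + 2 * |y - y'| := by
  have a1 := le_abs_self (x - x')
  have a2 := neg_abs_le (x - x')
  have b1 := le_abs_self (y - y')
  have b2 := neg_abs_le (y - y')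
  have a0 := abs_nonneg (x - x')
  have b0 := abs_nonneg (y - y')
  unfold Ls
  split_ifs with h1 h2 h2
  · -- both small: x^2 - y^2 - x'^2 + y'^2
    have e1 : (x - x') * (x + x') ≤ 2 * |x - x'| := by
      have : x + x' ≤ 2 := by linarith
      nlinarith
    have e2 : (y' - y) * (y + y') ≤ 2 * |y - y'| := by
      have : y + y' ≤ 2 := by linarith
      nlinarith
    nlinarith
  · have h2' : 1 < x' + y' := not_le.1 h2
    -- x^2 - y^2 - (2x' - 1)
    have e : x ^ 2 - y ^ 2 - (2 * 1 * x' - 1 ^ 2)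
        = 2 * (x - x') + (1 - x - y) * (1 - x + y) := by ring
    rw [e]
    have f1 : 0 ≤ 1 - x - y := by linarith
    have f2 : 1 - x - y ≤ (x' - x) + (y' - y) := by linarith
    have f3 : 0 ≤ 1 - x + y := by linarith
    have f4 : 1 - x + y ≤ 2 := by linarith
    have f5 : (1 - x - y) * (1 - x + y) ≤ ((x' - x) + (y' - y)) * 2 := by
      nlinarith
    linarith
  · have h1' : 1 < x + y := not_le.1 h1
    have e : 2 * 1 * x - 1 ^ 2 - (x' ^ 2 - y' ^ 2)
        = 2 * (x - x') - (1 - x' - y') * (1 - x' + y') := by ring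
    rw [e]
    have f1 : 0 ≤ 1 - x' - y' := by linarith
    have f3 : 0 ≤ 1 - x' + y' := by linarith
    have f5 := mul_nonneg f1 f3
    linarith
  · linarith

theorem LS_lip (z w z' w' : ℂ) : |LS z w - LS z' w'| ≤ 2 * ‖z - z'‖ + 2 * ‖w - w'‖ := by
  have h1 := abs_norm_sub_norm_le z z'
  have h2 := abs_norm_sub_norm_le w w'
  rw [LS_eq, LS_eq, abs_le]
  constructor
  · have h := Ls_lip ‖z'‖ ‖w'‖ ‖z‖ ‖w‖ (norm_nonneg _) (norm_nonneg _) (norm_nonneg _)
      (norm_nonneg _)
    rw [abs_sub_comm ‖z'‖, abs_sub_comm ‖w'‖] at h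
    linarith
  · have h := Ls_lip ‖z‖ ‖w‖ ‖z'‖ ‖w'‖ (norm_nonneg _) (norm_nonneg _) (norm_nonneg _)
      (norm_nonneg _)
    linarith

theorem continuous_LS : Continuous fun F : ℂ × ℂ => LS F.1 F.2 := by
  refine Metric.continuous_iff.2 fun F ε hε => ⟨ε / 4, by positivity, fun G hG => ?_⟩
  rw [Real.dist_eq]
  have h := LS_lip G.1 G.2 F.1 F.2
  have h1 : ‖G.1 - F.1‖ ≤ dist G F := by
    rw [dist_eq_norm]; exact norm_fst_le (G - F)
  have h2 : ‖G.2 - F.2‖ ≤ dist G F := by
    rw [dist_eq_norm]; exact norm_snd_le (G - F)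
  linarith

/-! ### `W^{1,2}` of the torus -/

/-- smooth functions on the torus -/
def TestFn (φ : V → ℂ) : Prop :=
  ContDiff ℝ (⊤ : ℕ∞) φ ∧ ∀ (x : V) (i : Fin 2), φ (x + Pi.single i 1) = φ x

/-- `f` belongs to `W^{1,2}` of the torus, with weak partial derivatives `g 0`, `g 1` -/
structure IsW12 (f : V → ℂ) (g : Fin 2 → V → ℂ) : Prop where
  hf : MemLp f 2 ((volume : Measure V).restrict (Icc 0 1))
  hg : ∀ i, MemLp (g i) 2 ((volume : Measure V).restrict (Icc 0 1))
  weak : ∀ φ : V → ℂ, TestFn φ → ∀ i, ∫ x in Icc (0 : V) 1, f x * fderiv ℝ φ x (Pi.single i 1)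
    = -∫ x in Icc (0 : V) 1, g i x * φ x

theorem contDiff_ek (k : Idx) (n : WithTop ℕ∞) : ContDiff ℝ n (ek k) := by
  unfold ek
  refine ContDiff.cexp ?_
  refine ContDiff.mul ?_ contDiff_const
  refine contDiff_const.mul ?_
  refine ContDiff.add ?_ ?_
  · exact contDiff_const.mul (Complex.ofRealCLM.contDiff.comp (contDiff_apply ℝ ℝ 0))
  · exact contDiff_const.mul (Complex.ofRealCLM.contDiff.comp (contDiff_apply ℝ ℝ 1))

theorem conj_ek (k : Idx) (x : V) : conj (ek k x) = ek (-k.1, -k.2) x := by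
  unfold ek
  rw [← Complex.exp_conj]
  congr 1
  simp only [map_mul, map_add, Complex.conj_ofReal, Complex.conj_I, map_ofNat, map_intCast]
  push_cast
  ring

theorem test_ek (k : Idx) : TestFn (ek k) :=
  ⟨contDiff_ek k _, fun x i => ek_periodic k i x⟩

theorem fderiv_ek (k : Idx) (x : V) (i : Fin 2) :
    fderiv ℝ (ek k) x (Pi.single i 1) = dk i k * ek k x := by
  rw [(hasFDerivAt_ek k x).fderiv]
  exact Pool.Agent.W779.Morrey.mk'_single _ _

theorem dk_neg (i : Fin 2) (k : Idx) : dk i (-k.1, -k.2) = -dk i k := by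
  fin_cases i
  · change dk 0 _ = -dk 0 _
    rw [dk_zero, dk_zero]; push_cast; ring
  · change dk 1 _ = -dk 1 _
    rw [dk_one, dk_one]; push_cast; ring

theorem fc_g {f : V → ℂ} {g : Fin 2 → V → ℂ} (h : IsW12 f g) (i : Fin 2) (k : Idx) :
    fc (g i) k = dk i k * fc f k := by
  have h1 := h.weak (ek (-k.1, -k.2)) (test_ek _) i
  simp only [fderiv_ek, dk_neg] at h1
  unfold fc
  simp only [conj_ek]
  have h2 : ∫ x in Icc (0 : V) 1, f x * (-dk i k * ek (-k.1, -k.2) x)
      = -(dk i k * ∫ x in Icc (0 : V) 1, ek (-k.1, -k.2) x * f x) := by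
    rw [← integral_const_mul, ← integral_neg]
    congr 1
    funext x
    ring
  rw [h2] at h1
  have h3 : ∫ x in Icc (0 : V) 1, g i x * ek (-k.1, -k.2) x
      = ∫ x in Icc (0 : V) 1, ek (-k.1, -k.2) x * g i x := by
    congr 1
    funext x
    ring
  rw [h3] at h1
  exact (neg_injective h1).symm

theorem tp_fc {f : V → ℂ} {g : Fin 2 → V → ℂ} (h : IsW12 f g) (N : ℕ) (x : V) :
    tp (box N) ka (fc f) x
      = ∑ k ∈ box N, fc (fun x => (g 0 x - Complex.I * g 1 x) / 2) k * ek k x ∧
    tp (box N) kb (fc f) x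
      = ∑ k ∈ box N, fc (fun x => (g 0 x + Complex.I * g 1 x) / 2) k * ek k x := by
  have hi : ∀ i k, IntegrableOn (fun y => conj (ek k y) * g i y) (Icc (0 : V) 1) := by
    intro i k
    have h1 : IntegrableOn (g i) (Icc (0 : V) 1) :=
      (h.hg i).integrable (by norm_num)
    refine Integrable.bdd_mul (c := 1) h1 ?_ ?_
    · exact (Complex.continuous_conj.comp (continuous_ek k)).aestronglyMeasurable
    · refine Eventually.of_forall fun x => ?_
      rw [RCLike.norm_conj]
      unfold ek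
      rw [show (2 * Real.pi * (k.1 * x 0 + k.2 * x 1) * Complex.I : ℂ)
        = ((2 * Real.pi * (k.1 * x 0 + k.2 * x 1) : ℝ) : ℂ) * Complex.I by push_cast; ring,
        Complex.norm_exp_ofReal_mul_I]
  have key : ∀ (s : ℂ) (k : Idx), fc (fun x => (g 0 x + s * g 1 x) / 2) k
      = (fc (g 0) k + s * fc (g 1) k) / 2 := by
    intro s k
    unfold fc
    have e : (fun y => conj (ek k y) * ((g 0 y + s * g 1 y) / 2))
        = fun y => (1 / 2) * (conj (ek k y) * g 0 y) + (s / 2) * (conj (ek k y) * g 1 y) := by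
      funext y; ring
    rw [e, integral_add ((hi 0 k).const_mul _) ((hi 1 k).const_mul _), integral_const_mul,
      integral_const_mul]
    ring
  have k1 : ∀ k, dk 0 k - Complex.I * dk 1 k = 2 * ka k := by
    intro k
    rw [dk_zero, dk_one]
    unfold ka
    ring
  have k2 : ∀ k, dk 0 k + Complex.I * dk 1 k = 2 * kb k := by
    intro k
    rw [dk_zero, dk_one]
    unfold kb
    ring
  constructor
  · unfold tp
    refine Finset.sum_congr rfl fun k _ => ?_
    have h1 := key (-Complex.I) k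
    have e : (fun x => (g 0 x + -Complex.I * g 1 x) / 2)
        = fun x => (g 0 x - Complex.I * g 1 x) / 2 := by
      funext x; ring
    rw [e] at h1
    rw [h1, fc_g h, fc_g h]
    linear_combination (-(fc f k * ek k x) / 2) * k1 k
  · unfold tp
    refine Finset.sum_congr rfl fun k _ => ?_
    rw [key Complex.I k, fc_g h, fc_g h]
    linear_combination (-(fc f k * ek k x) / 2) * k2 k

theorem integrable_LS {z w : V → ℂ} (hz : MemLp z 2 ((volume : Measure V).restrict (Icc 0 1)))
    (hw : MemLp w 2 ((volume : Measure V).restrict (Icc 0 1))) :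
    IntegrableOn (fun x => LS (z x) (w x)) (Icc (0 : V) 1) := by
  have h1 : IntegrableOn z (Icc (0 : V) 1) := hz.integrable (by norm_num)
  have h2 : IntegrableOn w (Icc (0 : V) 1) := hw.integrable (by norm_num)
  refine Integrable.mono' ((h1.norm.const_mul 2).add (h2.norm.const_mul 2)) ?_ ?_
  · exact continuous_LS.comp_aestronglyMeasurable (hz.1.prodMk hw.1)
  · refine Eventually.of_forall fun x => ?_
    have h := LS_lip (z x) (w x) 0 0
    have h0 : LS 0 0 = 0 := by simp [LS]
    rw [h0, sub_zero, sub_zero, sub_zero] at h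
    simpa [Real.norm_eq_abs] using h

/-- the inequality on the torus -/
theorem main (hL : S_QLB) (f : V → ℂ) (g : Fin 2 → V → ℂ) (h : IsW12 f g) :
    IntegrableOn (fun x => LS ((g 0 x - Complex.I * g 1 x) / 2) ((g 0 x + Complex.I * g 1 x) / 2))
      (Icc (0 : V) 1) ∧
    0 ≤ ∫ x in Icc (0 : V) 1,
      LS ((g 0 x - Complex.I * g 1 x) / 2) ((g 0 x + Complex.I * g 1 x) / 2) := by
  set z : V → ℂ := fun x => (g 0 x - Complex.I * g 1 x) / 2 with hz
  set w : V → ℂ := fun x => (g 0 x + Complex.I * g 1 x) / 2 with hw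
  have hz2 : MemLp z 2 ((volume : Measure V).restrict (Icc 0 1)) := by
    have h1 := ((h.hg 0).sub ((h.hg 1).const_mul Complex.I)).const_mul (1 / 2)
    have e : z = fun x => 1 / 2 * ((g 0 - fun x => Complex.I * g 1 x) x) := by
      funext x; simp only [hz, Pi.sub_apply]; ring
    rw [e]; exact h1
  have hw2 : MemLp w 2 ((volume : Measure V).restrict (Icc 0 1)) := by
    have h1 := ((h.hg 0).add ((h.hg 1).const_mul Complex.I)).const_mul (1 / 2)
    have e : w = fun x => 1 / 2 * ((g 0 + fun x => Complex.I * g 1 x) x) := by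
      funext x; simp only [hw, Pi.add_apply]; ring
    rw [e]; exact h1
  have hint := integrable_LS hz2 hw2
  refine ⟨hint, ?_⟩
  have hqc : ∀ N, 0 ≤ ∫ x in Icc (0 : V) 1,
      LS (tp (box N) ka (fc f) x) (tp (box N) kb (fc f) x) := by
    intro N
    have h1 := hL 1 one_pos 0 N (fc f)
    have h0 : Ls 1 ‖(0 : ℂ × ℂ).1‖ ‖(0 : ℂ × ℂ).2‖ = 0 := by simp [Ls]
    simp only [zero_add] at h1
    rw [h0] at h1
    simpa only [LS_eq, gd] using h1
  -- the errors
  set A : ℕ → ℝ := fun N => ∫ x in Icc (0 : V) 1, ‖z x - ∑ k ∈ box N, fc z k * ek k x‖ ^ 2 with hA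
  set B : ℕ → ℝ := fun N => ∫ x in Icc (0 : V) 1, ‖w x - ∑ k ∈ box N, fc w k * ek k x‖ ^ 2 with hB
  have hA0 : Tendsto A atTop (𝓝 0) := fourier_L2 z hz2
  have hB0 : Tendsto B atTop (𝓝 0) := fourier_L2 w hw2
  have hvol : ((volume : Measure V).restrict (Icc 0 1)).real univ = 1 := by
    rw [Measure.real, Measure.restrict_apply_univ]
    simp [Real.volume_Icc_pi]
  have hcont : ∀ (N : ℕ) (u : V → ℂ), Continuous fun x => ∑ k ∈ box N, fc u k * ek k x :=
    fun N u => continuous_finsetSum _ fun k _ => continuous_const.mul (continuous_ek k)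
  have hmem : ∀ (N : ℕ) (u : V → ℂ), MemLp (fun x => ∑ k ∈ box N, fc u k * ek k x) 2
      ((volume : Measure V).restrict (Icc 0 1)) := by
    intro N u
    have hc := hcont N u
    obtain ⟨C, hC⟩ := (isCompact_Icc (a := (0 : V)) (b := 1)).exists_bound_of_continuousOn
      hc.continuousOn
    refine MemLp.of_bound hc.aestronglyMeasurable C ?_
    exact (ae_restrict_iff' measurableSet_Icc).2 (Eventually.of_forall fun x hx => hC x hx)
  have est : ∀ δ : ℝ, 0 < δ → ∀ N, 0 ≤ (∫ x in Icc (0 : V) 1, LS (z x) (w x))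
      + (4 * δ + 2 / δ * (A N + B N)) := by
    intro δ hδ N
    have hzN := hmem N z
    have hwN := hmem N w
    have i1 : IntegrableOn (fun x => ‖z x - ∑ k ∈ box N, fc z k * ek k x‖ ^ 2) (Icc (0 : V) 1) :=
      (hz2.sub hzN).integrable_norm_pow (by norm_num)
    have i2 : IntegrableOn (fun x => ‖w x - ∑ k ∈ box N, fc w k * ek k x‖ ^ 2) (Icc (0 : V) 1) :=
      (hw2.sub hwN).integrable_norm_pow (by norm_num)
    have i3 : IntegrableOn (fun x => LS (∑ k ∈ box N, fc z k * ek k x)
        (∑ k ∈ box N, fc w k * ek k x)) (Icc (0 : V) 1) := integrable_LS hzN hwN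
    have ic : IntegrableOn (fun _ : V => 4 * δ) (Icc (0 : V) 1) := by
      refine integrableOn_const ?_
      rw [Real.volume_Icc_pi]; simp
    have hpt : ∀ x, LS (∑ k ∈ box N, fc z k * ek k x) (∑ k ∈ box N, fc w k * ek k x)
        ≤ LS (z x) (w x) + (4 * δ + 2 / δ * (‖z x - ∑ k ∈ box N, fc z k * ek k x‖ ^ 2
          + ‖w x - ∑ k ∈ box N, fc w k * ek k x‖ ^ 2)) := by
      intro x
      have h1 := (abs_le.1 (LS_lip (z x) (w x) (∑ k ∈ box N, fc z k * ek k x)
        (∑ k ∈ box N, fc w k * ek k x))).1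
      have am : ∀ t : ℝ, t ≤ δ + 1 / δ * t ^ 2 := by
        intro t
        have : 0 ≤ (t - δ) ^ 2 / δ := by positivity
        have e : (t - δ) ^ 2 / δ = 1 / δ * t ^ 2 - 2 * t + δ := by
          field_simp
          ring
        rw [e] at this
        nlinarith [sq_nonneg t, div_pos one_pos hδ, mul_nonneg (div_pos one_pos hδ).le (sq_nonneg t)]
      have a1 := am ‖z x - ∑ k ∈ box N, fc z k * ek k x‖
      have a2 := am ‖w x - ∑ k ∈ box N, fc w k * ek k x‖
      have e2 : 2 / δ = 2 * (1 / δ) := by ring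
      rw [e2]
      nlinarith
    have j1 : IntegrableOn (fun x => ‖z x - ∑ k ∈ box N, fc z k * ek k x‖ ^ 2
        + ‖w x - ∑ k ∈ box N, fc w k * ek k x‖ ^ 2) (Icc (0 : V) 1) := i1.add i2
    have j2 : IntegrableOn (fun x => 2 / δ * (‖z x - ∑ k ∈ box N, fc z k * ek k x‖ ^ 2
        + ‖w x - ∑ k ∈ box N, fc w k * ek k x‖ ^ 2)) (Icc (0 : V) 1) := j1.const_mul _
    have j3 : IntegrableOn (fun x => 4 * δ + 2 / δ * (‖z x - ∑ k ∈ box N, fc z k * ek k x‖ ^ 2
        + ‖w x - ∑ k ∈ box N, fc w k * ek k x‖ ^ 2)) (Icc (0 : V) 1) := ic.add j2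
    have h2 : ∫ x in Icc (0 : V) 1, LS (∑ k ∈ box N, fc z k * ek k x)
        (∑ k ∈ box N, fc w k * ek k x)
        ≤ ∫ x in Icc (0 : V) 1, (LS (z x) (w x) + (4 * δ + 2 / δ *
          (‖z x - ∑ k ∈ box N, fc z k * ek k x‖ ^ 2
          + ‖w x - ∑ k ∈ box N, fc w k * ek k x‖ ^ 2))) :=
      integral_mono i3 (hint.add j3) hpt
    rw [integral_add hint j3, integral_add ic j2, integral_const, hvol, integral_const_mul,
      integral_add i1 i2] at h2
    have h3 := hqc N
    simp only [tp_fc h] at h3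
    have h4 : 0 ≤ ∫ x in Icc (0 : V) 1, LS (∑ k ∈ box N, fc z k * ek k x)
        (∑ k ∈ box N, fc w k * ek k x) := h3
    simp only [one_smul] at h2
    linarith
  -- the limit
  by_contra hneg
  rw [not_le] at hneg
  set I : ℝ := ∫ x in Icc (0 : V) 1, LS (z x) (w x) with hI
  have hδ : 0 < -I / 8 := by linarith
  have hlim : Tendsto (fun N => I + (4 * (-I / 8) + 2 / (-I / 8) * (A N + B N))) atTop
      (𝓝 (I + (4 * (-I / 8) + 2 / (-I / 8) * (0 + 0)))) :=
    tendsto_const_nhds.add (tendsto_const_nhds.add ((hA0.add hB0).const_mul _))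
  have := ge_of_tendsto' hlim (est (-I / 8) hδ)
  linarith

end Pool.Agent.W682.BQ.Tor
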