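import Pool.Agent.W682.BQ.Asm0
import Pool.Agent.W337.BQ.Algb
import Pool.Agent.W154.BQ.Bndb

/-! Project BQ (helper682): the closed theorems. -/

set_option autoImplicit false

namespace Pool.Agent.W682.BQ.Asm

open Pool.Agent.W488.IW Pool.Agent.W488.IX Pool.Agent.W682.BQ
open Pool.Agent.W360.BQ (Cf Vg QCF S_FLOWF S_NULLF S_FLOWV)

theorem algb : S_ALGB := Pool.Agent.W337.BQ.Algb.main

theorem bndb : S_BNDB := Pool.Agent.W154.BQ.Bndb.main

theorem qwb : S_QWB := Asm0.qwb algb bndb

/-- the kernels are quasiconvex -/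
theorem qkb : S_QKB := Asm0.qkb algb bndb

/-- the Burkholder functional, `p > 2`, is quasiconvex -/
theorem qpb : S_QPB := Asm0.qpb algb bndb

/-- the Burkholder-Sverak function is quasiconvex -/
theorem qlb : S_QLB := Asm0.qlb algb bndb

/-- the Burkholder functional, `1 < p < 2`, is quasiconvex -/
theorem qpb2 : S_QPB2 := Asm0.qpb2 algb bndb

theorem det : S_DET := Pool.Agent.W646.BQ.Det.main

theorem plane : S_PLANE := Asm0.plane

end Pool.Agent.W682.BQ.Asm
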