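import Pool.Agent.W682.BQ.Stm

/-! Project BQ: the frozen statement S04873 from the parts. -/

set_option autoImplicit false

namespace Pool.Agent.W682.BQ.Frz

open MeasureTheory Set Filter Topology
open Pool.Agent.W488.IW Pool.Agent.W488.IX Pool.Agent.W682.BQ
open Pool.Agent.W360.BQ (Cf Vg QCF S_FLOWF S_NULLF)

/-- quasiconvexity at the origin -/
theorem qc0 {w : ℂ × ℂ → ℝ} (h : QCB w) (h0 : w 0 = 0) : QC0 w := by
  intro N c
  have := h 0 N c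
  rw [h0] at this
  simpa using this

theorem continuous_Bp {p : ℝ} (hp : 2 < p) :
    Continuous (fun F : ℂ × ℂ => Bp p ‖F.1‖ ‖F.2‖) := by
  unfold Bp
  have h1 : Continuous (fun F : ℂ × ℂ => ‖F.1‖) := continuous_fst.norm
  have h2 : Continuous (fun F : ℂ × ℂ => ‖F.2‖) := continuous_snd.norm
  exact ((continuous_const.mul h1).sub h2).mul
    ((h1.add h2).rpow_const (fun _ => Or.inr (by linarith)))

theorem continuous_Bp2 {p : ℝ} (hp : 1 < p) :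
    Continuous (fun F : ℂ × ℂ => Bp2 p ‖F.1‖ ‖F.2‖) := by
  unfold Bp2
  have h1 : Continuous (fun F : ℂ × ℂ => ‖F.1‖) := continuous_fst.norm
  have h2 : Continuous (fun F : ℂ × ℂ => ‖F.2‖) := continuous_snd.norm
  exact (h1.sub (continuous_const.mul h2)).mul
    ((h1.add h2).rpow_const (fun _ => Or.inr (by linarith)))

theorem qc0_det (hD : S_DET) : QC0 (fun F : ℂ × ℂ => ‖F.1‖ ^ 2 - ‖F.2‖ ^ 2) := by
  intro N c
  have := hD 0 N c
  simp only [zero_add] at this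
  rw [this]
  simp

theorem main (hQ : S_QPB) (hQ2 : S_QPB2) (hD : S_DET) (hP : S_PLANE) :
    ∀ p : ℝ, 1 < p → ∀ f : ℂ → ℂ, ContDiff ℝ (⊤ : ℕ∞) f → HasCompactSupport f →
      0 ≤ ∫ z : ℂ,
        p * (1 - 1 / max p (p / (p - 1))) ^ (p - 1) *
          ((max p (p / (p - 1)) - 1) *
              ‖(fderiv ℝ f z 1 - Complex.I * fderiv ℝ f z Complex.I) / 2‖ -
            ‖(fderiv ℝ f z 1 + Complex.I * fderiv ℝ f z Complex.I) / 2‖) *
          (‖(fderiv ℝ f z 1 - Complex.I * fderiv ℝ f z Complex.I) / 2‖ +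
            ‖(fderiv ℝ f z 1 + Complex.I * fderiv ℝ f z Complex.I) / 2‖) ^ (p - 1) := by
  intro p hp f hf hs
  have hf1 : ContDiff ℝ 1 f := hf.of_le (by exact_mod_cast le_top)
  have e1 : ∀ z, (fderiv ℝ f z 1 - Complex.I * fderiv ℝ f z Complex.I) / 2 = dz f z := by
    intro z; unfold dz; ring
  have e2 : ∀ z, (fderiv ℝ f z 1 + Complex.I * fderiv ℝ f z Complex.I) / 2 = dzb f z := by
    intro z; unfold dzb; ring
  simp_rw [e1, e2]
  have hp1 : 0 < p - 1 := by linarith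
  set P : ℝ := max p (p / (p - 1)) with hPdef
  have hPp : p ≤ P := le_max_left _ _
  have hα : 0 ≤ p * (1 - 1 / P) ^ (p - 1) := by
    apply mul_nonneg (by linarith)
    apply Real.rpow_nonneg
    have : 1 / P ≤ 1 := by
      rw [div_le_one (by linarith)]; linarith
    linarith
  rcases lt_trichotomy p 2 with h2 | h2 | h2
  · -- p < 2
    have hP2 : P = p / (p - 1) := by
      rw [hPdef, max_eq_right]
      rw [le_div_iff₀ hp1]
      nlinarith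
    have hP3 : P - 1 = 1 / (p - 1) := by
      rw [hP2]
      field_simp
      ring
    have h0 : (fun F : ℂ × ℂ => Bp2 p ‖F.1‖ ‖F.2‖) 0 = 0 := by
      simp [Bp2]
    have hpos : 0 ≤ ∫ z : ℂ, Bp2 p ‖dz f z‖ ‖dzb f z‖ :=
      hP (fun F : ℂ × ℂ => Bp2 p ‖F.1‖ ‖F.2‖) (continuous_Bp2 hp) h0
        (qc0 (hQ2 p hp h2) h0) f hf1 hs
    have e3 : ∀ z, p * (1 - 1 / P) ^ (p - 1) * ((P - 1) * ‖dz f z‖ - ‖dzb f z‖) *
        (‖dz f z‖ + ‖dzb f z‖) ^ (p - 1)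
        = (p * (1 - 1 / P) ^ (p - 1) / (p - 1)) * Bp2 p ‖dz f z‖ ‖dzb f z‖ := by
      intro z
      rw [hP3]
      unfold Bp2
      field_simp
    simp_rw [e3]
    rw [integral_const_mul]
    exact mul_nonneg (div_nonneg hα hp1.le) hpos
  · -- p = 2
    have hP2 : P = 2 := by
      rw [hPdef, h2]; norm_num
    have h0 : (fun F : ℂ × ℂ => ‖F.1‖ ^ 2 - ‖F.2‖ ^ 2) 0 = 0 := by
      simp
    have hpos : 0 ≤ ∫ z : ℂ, (‖dz f z‖ ^ 2 - ‖dzb f z‖ ^ 2) :=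
      hP (fun F : ℂ × ℂ => ‖F.1‖ ^ 2 - ‖F.2‖ ^ 2)
        ((continuous_fst.norm.pow 2).sub (continuous_snd.norm.pow 2)) h0
        (qc0_det hD) f hf1 hs
    have e3 : ∀ z, p * (1 - 1 / P) ^ (p - 1) * ((P - 1) * ‖dz f z‖ - ‖dzb f z‖) *
        (‖dz f z‖ + ‖dzb f z‖) ^ (p - 1)
        = (p * (1 - 1 / P) ^ (p - 1)) * (‖dz f z‖ ^ 2 - ‖dzb f z‖ ^ 2) := by
      intro z
      rw [hP2, h2]
      have : (‖dz f z‖ + ‖dzb f z‖) ^ ((2 : ℝ) - 1) = ‖dz f z‖ + ‖dzb f z‖ := by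
        norm_num
      rw [this]
      ring
    simp_rw [e3]
    rw [integral_const_mul]
    exact mul_nonneg hα hpos
  · -- 2 < p
    have hP2 : P = p := by
      rw [hPdef, max_eq_left]
      rw [div_le_iff₀ hp1]
      nlinarith
    have h0 : (fun F : ℂ × ℂ => Bp p ‖F.1‖ ‖F.2‖) 0 = 0 := by
      simp [Bp]
    have hpos : 0 ≤ ∫ z : ℂ, Bp p ‖dz f z‖ ‖dzb f z‖ :=
      hP (fun F : ℂ × ℂ => Bp p ‖F.1‖ ‖F.2‖) (continuous_Bp h2) h0
        (qc0 (hQ p h2) h0) f hf1 hs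
    have e3 : ∀ z, p * (1 - 1 / P) ^ (p - 1) * ((P - 1) * ‖dz f z‖ - ‖dzb f z‖) *
        (‖dz f z‖ + ‖dzb f z‖) ^ (p - 1)
        = (p * (1 - 1 / P) ^ (p - 1)) * Bp p ‖dz f z‖ ‖dzb f z‖ := by
      intro z
      rw [hP2]
      unfold Bp
      ring
    simp_rw [e3]
    rw [integral_const_mul]
    exact mul_nonneg hα hpos

end Pool.Agent.W682.BQ.Frz
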