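import Pool.Agent.W440.BQ.Ode
import Pool.Agent.W400.BQV.En
import Pool.Agent.W91.BQ.Comp
import Pool.Agent.W400.BQV.Lim
import Pool.Agent.W397.BQ.Leq
import Pool.Agent.W400.BQV.Str
import Pool.Agent.W400.BQV.Tail
import Pool.Agent.W440.BQ.Flow
import Pool.Agent.W400.BQV.Nullf
import Pool.Agent.W439.BQ.FlowF
import Pool.Agent.W360.BQ.Conc
import Pool.Agent.W411.IW.Pars
import Pool.Agent.W116.IW.Ibp
import Pool.Agent.W411.IW.Chain
import Pool.Agent.W74.IW.Plane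
import Pool.Agent.W253.IX.Divg
import Pool.Agent.W588.IX.Omg
import Pool.Agent.W72.IX.Rotg
import Pool.Agent.W779.BQ.Cut
import Pool.Agent.W645.BQ.Coefb
import Pool.Agent.W382.BQ.Regb
import Pool.Agent.W696.BQ.JB
import Pool.Agent.W215.BQ.Pcb
import Pool.Agent.W658.BQ.Qtb
import Pool.Agent.W778.BQ.Qwb
import Pool.Agent.W919.BQ.Tri
import Pool.Agent.W991.BQ.Fkb
import Pool.Agent.W991.BQ.Qkb
import Pool.Agent.W475.BQ.Wkb
import Pool.Agent.W475.BQ.Qpb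
import Pool.Agent.W790.BQ.Swap
import Pool.Agent.W646.BQ.Det
import Pool.Agent.W440.BQ.Qlb
import Pool.Agent.W778.BQ.Wkb2
import Pool.Agent.W475.BQ.Qpb2

/-! Project BQ (helper682): assembly, relative to the two parts `S_ALGB` and `S_BNDB`. -/

set_option autoImplicit false

namespace Pool.Agent.W682.BQ.Asm0

open Pool.Agent.W488.IW Pool.Agent.W488.IX Pool.Agent.W682.BQ
open Pool.Agent.W360.BQ (Cf Vg QCF S_FLOWF S_NULLF S_FLOWV)

theorem en : Pool.Agent.W360.BQ.S_EN := Pool.Agent.W400.BQV.En.main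

theorem comp : Pool.Agent.W360.BQ.S_COMP := Pool.Agent.W91.BQ.Comp.main en

theorem lim : Pool.Agent.W360.BQ.S_LIM := Pool.Agent.W400.BQV.Lim.main en

theorem leq : Pool.Agent.W360.BQ.S_LEQ := Pool.Agent.W397.BQ.Leq.main en lim

theorem str : Pool.Agent.W360.BQ.S_STR := Pool.Agent.W400.BQV.Str.main en lim leq

theorem tail : Pool.Agent.W360.BQ.S_TAIL := Pool.Agent.W400.BQV.Tail.main en comp lim str

theorem chain : S_CHAIN := Pool.Agent.W411.IW.Chain.main Pool.Agent.W116.IW.Ibp.main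

theorem flowv : S_FLOWV := Pool.Agent.W440.BQ.Flow.main Pool.Agent.W440.BQ.Ode.main en tail
  Pool.Agent.W360.BQ.Conc.main chain Pool.Agent.W411.IW.Pars.main

theorem flowf : S_FLOWF := Pool.Agent.W439.BQ.FlowF.main flowv

theorem nullf : S_NULLF := Pool.Agent.W400.BQV.Nullf.main

theorem pcb (hA : S_ALGB) (hB : S_BNDB) : S_PCB :=
  Pool.Agent.W215.BQ.Pcb.main Pool.Agent.W253.IX.Divg.main Pool.Agent.W588.IX.Omg.main
    Pool.Agent.W72.IX.Rotg.main Pool.Agent.W696.BQ.JB.main hA hB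

theorem qtb (hA : S_ALGB) (hB : S_BNDB) : S_QTB :=
  Pool.Agent.W658.BQ.Qtb.main (pcb hA hB) Pool.Agent.W382.BQ.Regb.main
    Pool.Agent.W645.BQ.Coefb.main Pool.Agent.W779.BQ.Cut.main nullf flowf

theorem qwb (hA : S_ALGB) (hB : S_BNDB) : S_QWB := Pool.Agent.W778.BQ.Qwb.main (qtb hA hB)

theorem qkb (hA : S_ALGB) (hB : S_BNDB) : S_QKB :=
  Pool.Agent.W991.BQ.Qkb.main (qwb hA hB) Pool.Agent.W991.BQ.Fkb.main Pool.Agent.W919.BQ.Tri.main

theorem qpb (hA : S_ALGB) (hB : S_BNDB) : S_QPB :=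
  Pool.Agent.W475.BQ.Qpb.main (qkb hA hB) Pool.Agent.W475.BQ.Wkb.main

theorem qlb (hA : S_ALGB) (hB : S_BNDB) : S_QLB :=
  Pool.Agent.W440.BQ.Qlb.main (qkb hA hB) Pool.Agent.W790.BQ.Swap.main Pool.Agent.W646.BQ.Det.main

theorem qpb2 (hA : S_ALGB) (hB : S_BNDB) : S_QPB2 :=
  Pool.Agent.W475.BQ.Qpb2.main (qlb hA hB) Pool.Agent.W778.BQ.Wkb2.main

theorem plane : S_PLANE := Pool.Agent.W74.IW.Plane.main

end Pool.Agent.W682.BQ.Asm0
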