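import Pool.Agent.W488.IX.Stm
import Pool.Agent.W360.BQ.Stm

/-! Project BQ: the Burkholder functional is quasiconvex.  Definitions and statements of the parts.

Everything is built on the definitions of project IW / IX (helper488): `Pool.Agent.W488.IW.Defs`,
`Pool.Agent.W488.IW.Stm`, `Pool.Agent.W488.IX.Stm`, and on block BQ-V (helper360, flow with variable
coefficient): `Pool.Agent.W360.BQ.Stm` (`Cf`, `Vg`, `QCF`, `S_FLOWF`, `S_NULLF`). -/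

set_option autoImplicit false

namespace Pool.Agent.W682.BQ

open MeasureTheory Set Filter Topology
open Pool.Agent.W488.IW Pool.Agent.W488.IX
open Pool.Agent.W360.BQ (Cf Vg QCF S_FLOWF S_NULLF)

/-- quasiconvexity at every point, for gradients of trigonometric polynomials -/
def QCB (w : ℂ × ℂ → ℝ) : Prop := ∀ F0 : ℂ × ℂ, QCF w F0

/-! ### the functions -/

/-- admissible `κ = ω''`: the last condition says that `ω^(1/3)` is concave -/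
structure BumpL (κ : ℝ → ℝ) : Prop where
  bump : Bump κ
  pos : 0 < om1 κ 2
  lc : ∀ t, κ t * om κ t ≤ 2 / 3 * om1 κ t ^ 2

/-- cut-off function -/
structure Cut (η : ℝ) (l : ℝ → ℝ) : Prop where
  c1 : ContDiff ℝ 1 l
  nn : ∀ t, 0 ≤ l t
  le : ∀ t, l t ≤ 1
  one : ∀ t, t ≤ 2 → l t = 1
  der : ∀ t, |deriv l t| ≤ η
  zero : ∃ R, ∀ t, R ≤ t → l t = 0

def S_CUT : Prop := ∀ η : ℝ, 0 < η → ∃ l, Cut η l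

/-- primitive of `1 - l` -/
noncomputable def JJ (l : ℝ → ℝ) (x : ℝ) : ℝ := ∫ t in (0 : ℝ)..x, (1 - l t)

/-- the corrected `ω` -/
noncomputable def Omc (κ l : ℝ → ℝ) (x y : ℝ) : ℝ := om κ (x + y) - om1 κ 2 * JJ l x

noncomputable def PsE (κ l : ℝ → ℝ) (ε x y : ℝ) : ℝ := l x * x * om1 κ (x + y) * ε ^ 2 / (2 * y ^ 2)
noncomputable def PsG (κ l : ℝ → ℝ) (x y : ℝ) : ℝ := -Omc κ l x y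

noncomputable def wB (κ : ℝ → ℝ) (ε ϑ : ℝ) (F : ℂ × ℂ) : ℝ :=
  fI κ (XX ε F.1) (XX ε F.2) - fI κ ε ε + ϑ / 2 * (‖F.1‖ ^ 2 + ‖F.2‖ ^ 2)
noncomputable def eB (κ l : ℝ → ℝ) (ε ϑ : ℝ) (F : ℂ × ℂ) : ℝ :=
  PsE κ l ε (XX ε F.1) (XX ε F.2) / XX ε F.1 ^ 2 + ϑ
noncomputable def gB (κ l : ℝ → ℝ) (ε ϑ : ℝ) (F : ℂ × ℂ) : ℝ :=
  PsG κ l (XX ε F.1) (XX ε F.2) / XX ε F.2 ^ 2 - ϑ
/-- the coefficients of the flow -/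
noncomputable def mB (l : ℝ → ℝ) (ε : ℝ) (F : ℂ × ℂ) : ℂ := (l (XX ε F.1) : ℂ) * ss ε F
noncomputable def n1B (κ l : ℝ → ℝ) (ε x y : ℝ) : ℝ :=
  4 * ε ^ 2 * (Omc κ l x y / om1 κ (x + y)) / ((y ^ 2 + ε ^ 2) * y)
noncomputable def nB (κ l : ℝ → ℝ) (ε δ : ℝ) (F : ℂ × ℂ) : ℝ :=
  2 + 4 * (δ * XX ε F.2 / (1 + XX ε F.2)) + n1B κ l ε (XX ε F.1) (XX ε F.2)

def S_COEFB : Prop := ∀ (κ l : ℝ → ℝ) (η : ℝ), BumpL κ → Cut η l → ∀ ε δ : ℝ, 0 < ε → ε < 1 →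
  0 < δ → Cf (mB l ε) (nB κ l ε δ) (2 + 4 * (δ * ε / (1 + ε)))

def S_REGB : Prop := ∀ (κ l : ℝ → ℝ) (η : ℝ), BumpL κ → Cut η l → ∀ (ε ϑ : ℝ), 0 < ε → ε < 1 →
  ContDiff ℝ 2 (wB κ ε ϑ) ∧ (∃ K : ℝ, ∀ F, ‖fderiv ℝ (fderiv ℝ (wB κ ε ϑ)) F‖ ≤ K) ∧
  ContDiff ℝ 1 (eB κ l ε ϑ) ∧ ContDiff ℝ 1 (gB κ l ε ϑ)

/-- derivatives of the functions of `(x,y)` -/
def S_JB : Prop := ∀ (κ l : ℝ → ℝ) (η : ℝ), BumpL κ → Cut η l → ∀ x y ε : ℝ, 0 < x → 0 < y →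
  HasFDerivAt (fun z : ℝ × ℝ => fI κ z.1 z.2)
    (lin (x * hh1 κ (x + y)) (om1 κ (x + y) - y * hh1 κ (x + y))) (x, y) ∧
  HasFDerivAt (fun z : ℝ × ℝ => z.1 * hh1 κ (z.1 + z.2))
    (lin (hh1 κ (x + y) + x * κ (x + y) / (x + y)) (x * κ (x + y) / (x + y))) (x, y) ∧
  HasFDerivAt (fun z : ℝ × ℝ => om1 κ (z.1 + z.2) - z.2 * hh1 κ (z.1 + z.2))
    (lin (x * κ (x + y) / (x + y)) (x * κ (x + y) / (x + y) - hh1 κ (x + y))) (x, y) ∧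
  HasFDerivAt (fun z : ℝ × ℝ => PsE κ l ε z.1 z.2)
    (lin (ε ^ 2 / (2 * y ^ 2) * (l x * om1 κ (x + y) + deriv l x * x * om1 κ (x + y)
        + x * κ (x + y)))
      (x * ε ^ 2 * (κ (x + y) / (2 * y ^ 2) - l x * om1 κ (x + y) / y ^ 3))) (x, y) ∧
  HasFDerivAt (fun z : ℝ × ℝ => PsG κ l z.1 z.2)
    (lin (-(l x * om1 κ (x + y))) (-om1 κ (x + y))) (x, y)

/-! ### algebra -/

/-- the real form of the certificate; `a = 1 - T ^ 2` -/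
noncomputable def MB (A T l k ρ ζ ξ ν l1 ϑ n P Q R : ℝ) : ℝ :=
  ρ * (A + T) * (A * P + (A + T) * Q + T * R) * (l * (A * T) * P + n * Q + l * (A * T) * R)
  + ζ * (T ^ 2 * (1 - l * (A * T)) * R ^ 2
      + (n * (2 - T ^ 2) - T ^ 2 * (1 + l * (A * T))) * Q ^ 2
      + (2 * (l * (A * T)) * (2 - T ^ 2) - n * T ^ 2) * (Q * R))
  + 2 * (1 - T ^ 2) * ν * (R ^ 2 - Q ^ 2)
  + 1 / 2 * (1 - T ^ 2) * ((2 - A ^ 2) * (l * ξ) + A ^ 2 * l1) * (P ^ 2 - Q ^ 2)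
  + 1 / 2 * (1 - T ^ 2) * A * k * (A * (P ^ 2 - Q ^ 2) + T * (P - Q) * (Q + R))
  + 2 * ϑ * ((P + l * (A * T) * Q) ^ 2 + (R + l * (A * T) * Q) ^ 2
      + (2 * n - 2 - 2 * (l * (A * T)) ^ 2) * Q ^ 2)

/-- numerical facts -/
structure BnB (K ε δ0 C A T l k ρ ζ ξ ν n1 δ l1 : ℝ) : Prop where
  hA : 0 ≤ A ∧ A ≤ 1
  hT : 0 ≤ T ∧ T < 1
  hl : 0 ≤ l ∧ l ≤ 1
  hl1 : |l1| ≤ K * ε
  dj : l = 1 ∨ (k = 0 ∧ ρ = 0)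
  hk : 0 ≤ k ∧ k ≤ K
  hρ : 0 ≤ ρ ∧ ρ ≤ k
  hζ : 0 ≤ ζ
  hξ : 0 ≤ ξ
  hν : 0 ≤ ν
  hn1 : 0 ≤ n1
  n1e : (2 - T ^ 2) * ζ * n1 = 4 * (1 - T ^ 2) * ν
  lc : ρ * ν ≤ 2 / 3 * ζ ^ 2
  kk : (1 - T ^ 2) * k ^ 2 ≤ K * ε * ζ
  xx : (1 - T ^ 2) * ξ ≤ 1 / 4 * ((1 - T ^ 2) ^ 2 * ν) + K * ε
  hδ : 0 ≤ δ ∧ δ ≤ δ0
  dz : δ * ζ ≤ K * δ0
  sl : C * ε ≤ (1 - T ^ 2) + δ
  A1 : (1 - A) * ρ ≤ K * ε
  A2 : (1 - A) * ρ * n1 ≤ K * ε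
  A3 : (1 - A) * (1 - T ^ 2) * k ≤ K * ε

def S_ALGB : Prop := ∀ K ϑ : ℝ, 1 ≤ K → 0 < ϑ → ∃ δ0 C : ℝ, 0 < δ0 ∧ δ0 ≤ 1 ∧ 0 < C ∧
  ∀ ε A T l k ρ ζ ξ ν n1 δ l1 : ℝ, 0 < ε → ε ≤ 1 → BnB K ε δ0 C A T l k ρ ζ ξ ν n1 δ l1 →
  ∀ P Q R : ℝ, 0 ≤ MB A T l k ρ ζ ξ ν l1 ϑ (2 + 4 * δ + n1) P Q R ∧
    0 ≤ MB A (-T) l k ρ ζ ξ ν l1 ϑ (2 + 4 * δ + n1) P Q R

def S_BNDB : Prop := ∀ κ : ℝ → ℝ, BumpL κ → ∃ K : ℝ, 1 ≤ K ∧ ∀ δ0 C : ℝ, 0 < δ0 → δ0 ≤ 1 →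
  0 < C → ∃ ε1 : ℝ, 0 < ε1 ∧ ε1 ≤ 1 ∧ ∀ ε : ℝ, 0 < ε → ε < ε1 → ∀ l : ℝ → ℝ, Cut ε l →
  ∀ x y : ℝ, 0 ≤ x → 0 ≤ y → ∀ X Y : ℝ, X = Real.sqrt (x ^ 2 + ε ^ 2) →
    Y = Real.sqrt (y ^ 2 + ε ^ 2) →
    BnB K ε δ0 C (x / X) (y / Y) (l X) (κ (X + Y)) (X * κ (X + Y) / (X + Y))
      (om1 κ (X + Y) / Y) (om1 κ (X + Y) / X) (Omc κ l X Y / Y ^ 2) (n1B κ l ε X Y)
      (δ0 * Y / (1 + Y)) (deriv l X * om1 κ (X + Y))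

/-- the pointwise certificate -/
def S_PCB : Prop := ∀ κ : ℝ → ℝ, BumpL κ → ∀ ϑ : ℝ, 0 < ϑ → ∃ δ : ℝ, 0 < δ ∧ ∃ ε1 : ℝ, 0 < ε1 ∧
  ∀ ε : ℝ, 0 < ε → ε < ε1 → ∀ l : ℝ → ℝ, Cut ε l → ∀ (F : ℂ × ℂ) (p q r : ℂ),
    0 ≤ 2 * DIV (wB κ ε ϑ) F p q r (Vg (mB l ε) (nB κ l ε δ) F p q r)
      + OMa (eB κ l ε ϑ) F p q r + OMb (gB κ l ε ϑ) F p q r

/-! ### conclusions on the torus -/

def S_QTB : Prop := ∀ κ : ℝ → ℝ, BumpL κ → ∀ ϑ : ℝ, 0 < ϑ → ∀ ε0 : ℝ, 0 < ε0 →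
  ∃ ε : ℝ, 0 < ε ∧ ε < ε0 ∧ QCB (wB κ ε ϑ)

def S_QWB : Prop := ∀ κ : ℝ → ℝ, BumpL κ → QCB (fun F => fI κ ‖F.1‖ ‖F.2‖)

/-- triangular bumps -/
noncomputable def tri (n : ℕ) (t : ℝ) : ℝ := n * max (1 - n * |t - 1|) 0

def S_TRI : Prop := ∀ n : ℕ, 2 ≤ n → BumpL (tri n) ∧ om1 (tri n) 2 = 1 ∧
  ∀ t : ℝ, 1 / (n : ℝ) ≤ |t - 1| → tri n t = 0

/-- the kernel -/
noncomputable def Kt (s x y : ℝ) : ℝ :=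
  (x * max (x + y - s) 0 - max (x + y - s) 0 ^ 2 / 2) / s

/-- the function `fI κ` is a superposition of the kernels -/
def S_FKB : Prop := ∀ κ : ℝ → ℝ, Bump κ → ∀ x y : ℝ, 0 ≤ x → 0 ≤ y →
  fI κ x y = ∫ s in (1 / 2 : ℝ)..2, κ s * Kt s x y

def S_QKB : Prop := ∀ s : ℝ, 0 < s → QCB (fun F => Kt s ‖F.1‖ ‖F.2‖)

/-- Burkholder's function, `p > 2` -/
noncomputable def Bp (p x y : ℝ) : ℝ := ((p - 1) * x - y) * (x + y) ^ (p - 1)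

def S_WKB : Prop := ∀ p x y : ℝ, 2 < p → 0 ≤ x → 0 ≤ y →
  IntegrableOn (fun s => s ^ (p - 2) * Kt s x y) (Ioi 0) ∧
  Bp p x y = p * (p - 1) * (p - 2) * ∫ s in Ioi (0 : ℝ), s ^ (p - 2) * Kt s x y

def S_QPB : Prop := ∀ p : ℝ, 2 < p → QCB (fun F => Bp p ‖F.1‖ ‖F.2‖)

/-- interchange of the two variables -/
def S_SWAP : Prop := ∀ f : ℝ → ℝ → ℝ, QCB (fun F => f ‖F.1‖ ‖F.2‖) →
  QCB (fun F => f ‖F.2‖ ‖F.1‖)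

/-- `|a|^2 - |b|^2` is a null Lagrangian -/
def S_DET : Prop := ∀ (F0 : ℂ × ℂ) (N : ℕ) (c : Idx → ℂ), ∫ x in Icc (0 : V) 1,
  (‖(F0 + gd (box N) c x).1‖ ^ 2 - ‖(F0 + gd (box N) c x).2‖ ^ 2) = ‖F0.1‖ ^ 2 - ‖F0.2‖ ^ 2

/-- the Burkholder-Sverak function, scaled -/
noncomputable def Ls (t x y : ℝ) : ℝ := if x + y ≤ t then x ^ 2 - y ^ 2 else 2 * t * x - t ^ 2

def S_QLB : Prop := ∀ t : ℝ, 0 < t → QCB (fun F => Ls t ‖F.1‖ ‖F.2‖)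

/-- Burkholder's function, `1 < p < 2` -/
noncomputable def Bp2 (p x y : ℝ) : ℝ := (x - (p - 1) * y) * (x + y) ^ (p - 1)

def S_WKB2 : Prop := ∀ p x y : ℝ, 1 < p → p < 2 → 0 ≤ x → 0 ≤ y →
  IntegrableOn (fun t => t ^ (p - 3) * Ls t x y) (Ioi 0) ∧
  Bp2 p x y = p * (2 - p) * (p - 1) / 2 * ∫ t in Ioi (0 : ℝ), t ^ (p - 3) * Ls t x y

def S_QPB2 : Prop := ∀ p : ℝ, 1 < p → p < 2 → QCB (fun F => Bp2 p ‖F.1‖ ‖F.2‖)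

end Pool.Agent.W682.BQ
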